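import Pool.Agent.Helper91.LN6.Braid

/-!
LN6, leaf B4: `(s 0 * ... * s (m-2)) ^ m = T m`; elements of exponent one for the levels.
-/

namespace LN6

namespace WSys

variable {k : ℕ} {Γ F : Type} [Group Γ] [MulAction Γ F]

@[simp] theorem up_nil (W : WSys k Γ F) (i : ℕ) : W.up i 0 = 1 := rfl

theorem up_step (W : WSys k Γ F) (i n : ℕ) : W.up i (n + 1) = W.up i n * W.s (i + n) := rfl

theorem up_single (W : WSys k Γ F) (i : ℕ) : W.up i 1 = W.s i := by simp [up]

theorem up_step' (W : WSys k Γ F) (i n : ℕ) : W.up i (n + 1) = W.s i * W.up (i + 1) n := by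
  induction n with
  | zero => simp [up]
  | succ n ih =>
    rw [W.up_step i (n + 1), ih, W.up_step (i + 1) n, mul_assoc]
    congr 3
    omega

/-- `up i n` commutes with what commutes with `s i, ..., s (i+n-1)` -/
theorem commute_of_up (W : WSys k Γ F) {i n : ℕ} {t : Γ} (ht : ∀ j, j < n → Commute (W.s (i + j)) t) :
    Commute (W.up i n) t := by
  induction n with
  | zero => exact Commute.one_left t
  | succ n ih =>
    rw [W.up_step]
    exact (ih fun j hj => ht j (by omega)).mul_left (ht n (by omega))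

theorem upB_mem_Bm (W : WSys k Γ F) {n m : ℕ} (h : n + 1 ≤ m) : W.up 0 n ∈ W.Bm m := by
  induction n with
  | zero => exact one_mem _
  | succ n ih =>
    rw [W.up_step]
    exact mul_mem (ih (by omega)) (W.s_mem_Bm (by omega))

/-- conjugation with `up i n` shifts the generators -/
theorem upB_shift (W : WSys k Γ F) (i n l : ℕ) (hl : l + 1 < n) (hn : i + n < k) :
    W.up i n * W.s (i + l) = W.s (i + l + 1) * W.up i n := by
  induction n with
  | zero => omega
  | succ n ih =>
    rcases Nat.lt_or_ge (l + 1) n with h | h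
    · have hc : Commute (W.s (i + l)) (W.s (i + n)) := W.commute_s _ _ (by omega) (by omega)
      rw [W.up_step, mul_assoc, ← hc.eq, ← mul_assoc, ih h (by omega), mul_assoc]
    · obtain rfl : n = l + 1 := by omega
      have hb := W.braid (i + l) (by omega)
      have hc : Commute (W.up i l) (W.s (i + l + 1)) :=
        W.commute_of_up fun j hj => W.commute_s _ _ (by omega) (by omega)
      rw [W.up_step, W.up_step, ← Nat.add_assoc]
      calc W.up i l * W.s (i + l) * W.s (i + l + 1) * W.s (i + l)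
          = W.up i l * (W.s (i + l) * W.s (i + l + 1) * W.s (i + l)) := by group
        _ = W.up i l * (W.s (i + l + 1) * W.s (i + l) * W.s (i + l + 1)) := by rw [hb]
        _ = (W.up i l * W.s (i + l + 1)) * (W.s (i + l) * W.s (i + l + 1)) := by group
        _ = (W.s (i + l + 1) * W.up i l) * (W.s (i + l) * W.s (i + l + 1)) := by rw [hc.eq]
        _ = W.s (i + l + 1) * (W.up i l * W.s (i + l) * W.s (i + l + 1)) := by group

/-- `dnB m j = s (m-1) * ... * s (m-j)` -/
def dnB (W : WSys k Γ F) (m : ℕ) : ℕ → Γ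
  | 0 => 1
  | (j + 1) => dnB W m j * W.s (m - 1 - j)

theorem dnB_step (W : WSys k Γ F) (m j : ℕ) : W.dnB m (j + 1) = W.dnB m j * W.s (m - 1 - j) := rfl

theorem dnB_step' (W : WSys k Γ F) (m j : ℕ) : W.dnB (m + 1) (j + 1) = W.s m * W.dnB m j := by
  induction j with
  | zero => simp [dnB]
  | succ j ih =>
    rw [W.dnB_step (m + 1) (j + 1), ih, W.dnB_step m j, mul_assoc]
    congr 3
    omega

/-- `lam m = (s (m-1) ... s 0) * (s 0 ... s (m-1))` -/
theorem lam_eq_dnB (W : WSys k Γ F) (m : ℕ) : W.lam m = W.dnB m m * W.up 0 m := by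
  induction m with
  | zero => simp [dnB, lam]
  | succ m ih =>
    rw [W.lam_step, ih, W.dnB_step', W.up_step, Nat.zero_add]
    group

theorem dnB_up (W : WSys k Γ F) (m j : ℕ) (hj : j + 1 ≤ m) (hm : m < k) :
    W.dnB m j * W.up 0 m = W.up 0 (m - 1) * W.dnB m (j + 1) := by
  induction j with
  | zero =>
    obtain ⟨n, rfl⟩ : ∃ n, m = n + 1 := ⟨m - 1, by omega⟩
    rw [W.up_step]
    simp [dnB]
  | succ j ih =>
    have h1 := ih (by omega)
    have hs : W.up 0 m * W.s (m - 1 - (j + 1)) = W.s (m - 1 - j) * W.up 0 m := by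
      have h := W.upB_shift 0 m (m - 1 - (j + 1)) (by omega) (by omega)
      rw [Nat.zero_add] at h
      rw [h]
      congr 2
      omega
    calc W.dnB m (j + 1) * W.up 0 m = W.dnB m j * (W.s (m - 1 - j) * W.up 0 m) := by rw [W.dnB_step, mul_assoc]
      _ = W.dnB m j * (W.up 0 m * W.s (m - 1 - (j + 1))) := by rw [hs]
      _ = (W.dnB m j * W.up 0 m) * W.s (m - 1 - (j + 1)) := by group
      _ = (W.up 0 (m - 1) * W.dnB m (j + 1)) * W.s (m - 1 - (j + 1)) := by rw [h1]
      _ = W.up 0 (m - 1) * W.dnB m (j + 1 + 1) := by rw [W.dnB_step m (j + 1), mul_assoc]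

theorem upB_pow (W : WSys k Γ F) (m j : ℕ) (hj : j ≤ m) (hm : m < k) :
    W.up 0 m ^ j = W.up 0 (m - 1) ^ j * W.dnB m j := by
  induction j with
  | zero => simp [dnB]
  | succ j ih =>
    rw [pow_succ, ih (by omega), mul_assoc, W.dnB_up m j (by omega) hm, ← mul_assoc, ← pow_succ]

/-- the rotation to the power `m` is the full twist -/
theorem up_pow_eq_T (W : WSys k Γ F) (m : ℕ) (hm : m ≤ k) : W.up 0 (m - 1) ^ m = W.T m := by
  induction m with
  | zero => simp [T]
  | succ m ih =>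
    rcases Nat.eq_zero_or_pos m with rfl | hpos
    · simp [T]
    · have h1 : W.up 0 m ^ m = W.up 0 (m - 1) ^ m * W.dnB m m := W.upB_pow m m le_rfl (by omega)
      rw [Nat.add_sub_cancel, pow_succ, h1, ih (by omega), mul_assoc, ← W.lam_eq_dnB, W.T_step]

/-! ### `s 0 * s 1 * s 0` -/

/-- `s 0 * s 1 * s 0` exchanges `s 0` and `s 1` -/
theorem d3_s0 (W : WSys k Γ F) (hk : 2 < k) :
    W.s 0 * W.s 1 * W.s 0 * W.s 0 = W.s 1 * (W.s 0 * W.s 1 * W.s 0) := by
  have hb := W.braid 0 (by omega)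
  simp only [Nat.zero_add] at hb
  rw [hb]
  nth_rewrite 2 [← hb]
  rw [hb]
  calc W.s 1 * W.s 0 * W.s 1 * W.s 0 = W.s 1 * (W.s 0 * W.s 1 * W.s 0) := by group
    _ = W.s 1 * (W.s 1 * W.s 0 * W.s 1) := by rw [hb]

theorem d3_s1 (W : WSys k Γ F) (hk : 2 < k) :
    W.s 0 * W.s 1 * W.s 0 * W.s 1 = W.s 0 * (W.s 0 * W.s 1 * W.s 0) := by
  have hb := W.braid 0 (by omega)
  simp only [Nat.zero_add] at hb
  calc W.s 0 * W.s 1 * W.s 0 * W.s 1 = W.s 0 * (W.s 1 * W.s 0 * W.s 1) := by group
    _ = W.s 0 * (W.s 0 * W.s 1 * W.s 0) := by rw [← hb]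

end WSys

end LN6
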