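import Pool.Agent.Helper26.LN6.Vm

/-!
LN6, leaf E2: the levels `SLV b m` for all `4 ≤ m < k` (memo_LN6_helper26.md, section 2; the pair `(s 0, s 1)` with the
remark of helper75: by (Tr) for `(s 3, s 1)` the largest classes of `s 0` and `s 1` are never separated by `T 3`, in every
block).
-/

open scoped Classical
open Finset

namespace LN6

namespace WSys

variable {k : ℕ} {Γ F : Type} [Group Γ] [MulAction Γ F] {W : WSys k Γ F} {b : ℝ}

/-- (Tr) for all pairs of disjoint arcs -/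
theorem Ax.tr2 (A : W.Ax b) {h h' : Γ} (hh : W.Arc2 h h') (x : F) :
    W.R x (h⁻¹ • h' • x) ∧ (h⁻¹ • h' • x = x ∨ 0 < W.v h x (h⁻¹ • h' • x) ∨ 0 < W.v h' x (h⁻¹ • h' • x)) := by
  obtain ⟨g, rfl, rfl⟩ := hh
  have hk := A.k5
  have he : (g * W.s 0 * g⁻¹)⁻¹ • (g * W.s 2 * g⁻¹) • x = g • (W.s 0)⁻¹ • W.s 2 • g⁻¹ • x := by
    simp only [← mul_smul]
    congr 1
    group
  have hR : W.R (g⁻¹ • x) ((W.s 0)⁻¹ • W.s 2 • g⁻¹ • x) := by
    have h1 := W.R_smul (W.s 0)⁻¹ (W.R_s 2 (g⁻¹ • x) (by omega))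
    rw [inv_smul_smul] at h1
    exact W.R_symm h1
  rw [he]
  constructor
  · have h2 := W.R_smul g hR
    rwa [smul_inv_smul] at h2
  · by_cases hx : (W.s 0)⁻¹ • W.s 2 • g⁻¹ • x = g⁻¹ • x
    · left
      rw [hx, smul_inv_smul]
    · right
      have hx' : x ≠ g • (W.s 0)⁻¹ • W.s 2 • g⁻¹ • x := fun e => hx (by
        nth_rewrite 2 [e]
        rw [inv_smul_smul])
      have hRx : W.R x (g • (W.s 0)⁻¹ • W.s 2 • g⁻¹ • x) := by
        have h2 := W.R_smul g hR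
        rwa [smul_inv_smul] at h2
      rw [W.v_conj'' _ _ hRx hx', W.v_conj'' _ _ hRx hx', inv_smul_smul]
      rcases A.tr (g⁻¹ • x) with h1 | h1 | h1
      · exact absurd h1 hx
      · exact Or.inl h1
      · exact Or.inr h1

/-- same block, and at level `b` for `T m` -/
def Lv (W : WSys k Γ F) (b : ℝ) (m : ℕ) (x y : F) : Prop := W.R x y ∧ (x ≠ y → b ≤ W.v (W.T m) x y)

theorem Lv.refl (W : WSys k Γ F) (b : ℝ) (m : ℕ) (x : F) : W.Lv b m x x :=
  ⟨W.R_refl x, fun h => absurd rfl h⟩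

theorem Lv.symm {m : ℕ} {x y : F} (h : W.Lv b m x y) : W.Lv b m y x :=
  ⟨W.R_symm h.1, fun hne => by rw [W.v_symm]; exact h.2 (Ne.symm hne)⟩

theorem Lv.trans (A : W.Ax b) {m : ℕ} (h2m : 2 ≤ m) (hm : m < k) {x y z : F} (h1 : W.Lv b m x y)
    (h2 : W.Lv b m y z) : W.Lv b m x z := by
  refine ⟨W.R_trans h1.1 h2.1, fun hxz => ?_⟩
  by_cases hxy : x = y
  · subst hxy
    exact h2.2 hxz
  by_cases hyz : y = z
  · subst hyz
    exact h1.2 hxy
  exact (le_min (h1.2 hxy) (h2.2 hyz)).trans (A.ultra m h2m hm x y z h1.1 h2.1 hxy hyz hxz)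

theorem Lv.smul {m : ℕ} (hm : m ≤ k) {g : Γ} (hg : g ∈ W.Bm m) {x y : F} (h : W.Lv b m x y) :
    W.Lv b m (g • x) (g • y) := by
  refine ⟨W.R_smul g h.1, fun hne => ?_⟩
  have hne' : x ≠ y := fun e => hne (by rw [e])
  rw [T_smul_Bm hm hg h.1 hne']
  exact h.2 hne'

theorem Lv.of_smul {m : ℕ} (hm : m ≤ k) {g : Γ} (hg : g ∈ W.Bm m) {x y : F} (h : W.Lv b m (g • x) (g • y)) :
    W.Lv b m x y := by
  have h1 := Lv.smul hm (inv_mem hg) h
  rwa [inv_smul_smul, inv_smul_smul] at h1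

variable [Fintype F]

section levels

variable (A : W.Ax b) (h3 : W.SF3) (h2 : W.SF2) (h1 : W.SOne) (hV : W.SV b)
include A h3 h2 h1 hV

omit h3 in
/-- inside `B (s 0)` -/
theorem lvA {m : ℕ} (h4m : 4 ≤ m) (hm : m < k) {x y : F} (hx : x ∈ W.B (W.s 0)) (hy : y ∈ W.B (W.s 0))
    (hR : W.R x y) : W.Lv b m x y := by
  have hk := A.k5
  refine ⟨hR, fun hne => ?_⟩
  obtain ⟨z, hz, hRz⟩ := A.exists_B (W.arc_s 2 (by omega)) x
  have hnz : ¬ W.E (W.s 0) x z := fun hE => h2 z (A.B_of_E W.arc_s0 hE hx) hz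
  have h := A.nest_le (by omega) hm (by omega : 0 + 2 ≤ m) (h1 x y hx hy hR) hne hRz hnz
  rwa [hV m h4m hm x hx z hz hRz] at h

omit h3 in
theorem lvA' {m : ℕ} (h4m : 4 ≤ m) (hm : m < k) {g : Γ} (hg : g ∈ W.Bm m) {x y : F}
    (hx : x ∈ W.B (g * W.s 0 * g⁻¹)) (hy : y ∈ W.B (g * W.s 0 * g⁻¹)) (hR : W.R x y) : W.Lv b m x y := by
  rw [B_conj'] at hx hy
  exact Lv.of_smul hm.le (inv_mem hg) (lvA A h2 h1 hV h4m hm hx hy (W.R_smul _ hR))

omit [Fintype F] A h3 h2 h1 hV in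
theorem commute_ss (i j : ℕ) (hj : i + 2 ≤ j) (hjk : j + 2 < k) :
    (W.s j * W.s (j + 1)) * W.s i = W.s i * (W.s j * W.s (j + 1)) :=
  ((W.commute_s i j hj (by omega)).mul_right (W.commute_s i (j + 1) (by omega) (by omega))).symm.eq

omit h3 in
/-- `B (s 0)` against `B (s i)`, `i ≥ 2` -/
theorem lvB {m : ℕ} (h4m : 4 ≤ m) (hm : m < k) (i : ℕ) (hi : 2 ≤ i) (him : i + 2 ≤ m) {x z : F}
    (hx : x ∈ W.B (W.s 0)) (hz : z ∈ W.B (W.s i)) (hR : W.R x z) : W.Lv b m x z := by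
  induction i, hi using Nat.le_induction generalizing x z with
  | base => exact ⟨hR, fun _ => (hV m h4m hm x hx z hz hR).ge⟩
  | succ i hi ih =>
    have hc : (W.s i * W.s (i + 1)) ∈ W.Bm m := mul_mem (W.s_mem_Bm (by omega)) (W.s_mem_Bm (by omega))
    rw [W.s_succ_conj i (by omega), B_conj'] at hz
    have hcomm := commute_ss (W := W) 0 i (by omega) (by omega)
    have hx' : (W.s i * W.s (i + 1))⁻¹ • x ∈ W.B (W.s 0) := by
      have h := B_smul (W := W) hcomm ((W.s i * W.s (i + 1))⁻¹ • x)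
      rw [smul_inv_smul] at h
      exact h.1 hx
    exact Lv.of_smul hm.le (inv_mem hc) (ih (by omega) hx' hz (W.R_smul _ hR))

omit h3 in
/-- if `T m` is positive on a pair in `B (s 0) × B (s 1)` then it is at level `b` -/
theorem lvC2 {m : ℕ} (h4m : 4 ≤ m) (hm : m < k) {x y : F} (hx : x ∈ W.B (W.s 0))
    (hR : W.R x y) (hne : x ≠ y) (hpos : 0 < W.v (W.T m) x y) : b ≤ W.v (W.T m) x y := by
  have hk := A.k5
  by_contra hlt
  push Not at hlt
  obtain ⟨g, hg, hgp⟩ := A.exists_of_T_pos hm.le hR hne hpos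
  obtain ⟨z, hz, hRz⟩ := A.exists_B (W.arc_s 2 (by omega)) x
  have harc2 : W.Arc (W.s 2) := W.arc_s 2 (by omega)
  set S : Finset F := (W.cl (W.s 0) x ∪ W.cl (W.s 2) z).image (fun u => g • u) with hS
  have hdisj : Disjoint (W.cl (W.s 0) x) (W.cl (W.s 2) z) := by
    rw [Finset.disjoint_left]
    intro u hu hu'
    exact h2 u (A.B_of_E W.arc_s0 (mem_cl.1 hu) hx) (A.B_of_E harc2 (mem_cl.1 hu') hz)
  have hcx : (W.cl (W.s 0) x).card = W.r := hx
  have hcz : (W.cl (W.s 2) z).card = W.r := hz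
  have hrpos : 0 < W.r := by
    rw [← hcx]
    exact card_pos.2 ⟨x, self_mem_cl _ x⟩
  have hcard : S.card = W.r + W.r := by
    rw [hS, card_image_of_injective _ (MulAction.injective g), card_union_of_disjoint hdisj, hcx, hcz]
  have hsub : S ⊆ W.cl (W.s 0) (g • x) := by
    intro w hw
    rw [hS] at hw
    obtain ⟨u, hu, rfl⟩ := mem_image.1 hw
    have hLv : W.Lv b m x u := by
      rcases mem_union.1 hu with h | h
      · rw [mem_cl] at h
        exact lvA A h2 h1 hV h4m hm hx (A.B_of_E W.arc_s0 h hx) h.toR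
      · rw [mem_cl] at h
        exact lvB A h2 h1 hV h4m hm 2 le_rfl (by omega) hx (A.B_of_E harc2 h hz) (W.R_trans hRz h.toR)
    rw [mem_cl]
    by_cases hxu : x = u
    · rw [hxu]
      exact E_refl _ _
    have hVu := hLv.2 hxu
    have huy : u ≠ y := by
      rintro rfl
      exact absurd hVu (not_le.2 hlt)
    have hRg : W.R (g • x) (g • u) := W.R_smul g hLv.1
    have hn := A.nest m (by omega) hm (g • x) (g • u) (g • y) hRg (W.R_smul g hR) (by simpa using hxu)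
      (by simpa using hne) (by simpa using huy)
    rw [T_smul_Bm hm.le hg hLv.1 hxu, T_smul_Bm hm.le hg hR hne] at hn
    have hge : 0 ≤ W.v (W.s 0) (g • x) (g • u) - W.v (W.s 0) (g • x) (g • y) := by
      by_contra hcon
      push Not at hcon
      have : (W.v (W.s 0) (g • x) (g • u) - W.v (W.s 0) (g • x) (g • y)) *
          (W.v (W.T m) x u - W.v (W.T m) x y) < 0 := mul_neg_of_neg_of_pos hcon (by linarith)
      linarith
    exact E_of_pos hRg (by linarith)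
  exact not_subset_of_card W.arc_s0 hsub (by omega)

/-- in every block there is a pair in `B (s 0) × B (s 1)` at level `b` -/
theorem lvC1 {m : ℕ} (h4m : 4 ≤ m) (hm : m < k) (x₀ : F) :
    ∃ x ∈ W.B (W.s 0), ∃ y ∈ W.B (W.s 1), W.R x₀ x ∧ W.Lv b m x y := by
  have hk := A.k5
  obtain ⟨w, hw, hRw⟩ := A.exists_B W.arc_s0 ((W.s 0)⁻¹ • x₀)
  obtain ⟨hRu, hu⟩ := A.tr2 (W.arc2_gt 1 3 (by omega) (by omega)) w
  set u := (W.s 3)⁻¹ • W.s 1 • w with hu_def
  have hB1 : W.s 1 • w ∈ W.B (W.s 1 * W.s 0 * (W.s 1)⁻¹) := (B_conj _ _ _).2 hw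
  have hc3 : (W.s 3)⁻¹ * (W.s 1 * W.s 0 * (W.s 1)⁻¹) = (W.s 1 * W.s 0 * (W.s 1)⁻¹) * (W.s 3)⁻¹ := by
    have c0 : Commute (W.s 3) (W.s 0) := (W.commute_s 0 3 (by omega) (by omega)).symm
    have c1 : Commute (W.s 3) (W.s 1) := (W.commute_s 1 3 (by omega) (by omega)).symm
    exact (((c1.mul_right c0).mul_right c1.inv_right).inv_left).eq
  have hBu : u ∈ W.B (W.s 1 * W.s 0 * (W.s 1)⁻¹) := (B_smul hc3 _).2 hB1
  have hB0 : W.s 0 • w ∈ W.B (W.s 0) := (B_smul rfl w).2 hw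
  have hB1' : W.s 0 • u ∈ W.B (W.s 1) := by
    have h := (B_conj (W.s 0) (W.s 1 * W.s 0 * (W.s 1)⁻¹) u).2 hBu
    have he : W.s 0 * (W.s 1 * W.s 0 * (W.s 1)⁻¹) * (W.s 0)⁻¹ = W.s 1 := by
      have h0 := W.s_succ_conj 0 (by omega)
      simp only [Nat.zero_add] at h0
      conv_rhs => rw [h0]
      group
    rwa [he] at h
  refine ⟨W.s 0 • w, hB0, W.s 0 • u, hB1', ?_, W.R_smul _ hRu, fun hne => ?_⟩
  · have h := W.R_smul (W.s 0) hRw
    rwa [smul_inv_smul] at h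
  · have hwu : w ≠ u := fun e => hne (by rw [← e])
    rcases hu with h | h | h
    · exact absurd h.symm hwu
    · have hE : W.E (W.s 0) w u := by
        by_contra hcon
        have := h3 3 (by omega) (by omega) w hw u hRu hcon
        rw [this] at h
        exact lt_irrefl _ h
      have huB : W.s 0 • u ∈ W.B (W.s 0) := (B_smul rfl u).2 (A.B_of_E W.arc_s0 hE hw)
      exact (lvA A h2 h1 hV h4m hm hB0 huB (W.R_smul _ hRu)).2 hne
    · have hpos := A.T_pos_of_s (by omega : 1 + 2 ≤ m) hm.le hRu hwu h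
      rw [← T_smul_Bm hm.le (W.s_mem_Bm (by omega : 0 + 1 < m)) hRu hwu] at hpos
      exact lvC2 A h2 h1 hV h4m hm hB0 (W.R_smul _ hRu) hne hpos

theorem lvC {m : ℕ} (h4m : 4 ≤ m) (hm : m < k) {x y : F} (hx : x ∈ W.B (W.s 0)) (hy : y ∈ W.B (W.s 1))
    (hR : W.R x y) : W.Lv b m x y := by
  obtain ⟨x', hx', y', hy', hR', hLv⟩ := lvC1 A h3 h2 h1 hV h4m hm x
  obtain ⟨g, hg, he⟩ := W.s_conj_zero 1 (by omega)
  have hxx : W.Lv b m x x' := lvA A h2 h1 hV h4m hm hx hx' hR'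
  have hyR : W.R y' y := W.R_trans (W.R_symm hLv.1) (W.R_trans (W.R_symm hR') hR)
  have hyy : W.Lv b m y' y := by
    rw [he] at hy hy'
    exact lvA' A h2 h1 hV h4m hm (W.Bm_mono (by omega) hg) hy' hy hyR
  exact Lv.trans A (by omega) hm (Lv.trans A (by omega) hm hxx hLv) hyy

theorem lvD {m : ℕ} (h4m : 4 ≤ m) (hm : m < k) (i : ℕ) (him : i + 2 ≤ m) {x y : F}
    (hx : x ∈ W.B (W.s 0)) (hy : y ∈ W.B (W.s i)) (hR : W.R x y) : W.Lv b m x y := by
  rcases Nat.lt_or_ge i 2 with h | h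
  · have h' : i = 0 ∨ i = 1 := by omega
    rcases h' with rfl | rfl
    · exact lvA A h2 h1 hV h4m hm hx hy hR
    · exact lvC A h3 h2 h1 hV h4m hm hx hy hR
  · exact lvB A h2 h1 hV h4m hm i h him hx hy hR

/-- the ball of level `b` around `B (s 0)` is stable under the generators of the disc -/
theorem lvE {m : ℕ} (h4m : 4 ≤ m) (hm : m < k) {g : Γ} (hg : g ∈ W.Bm m) {x : F}
    (hx : ∃ y ∈ W.B (W.s 0), W.Lv b m x y) : ∃ y ∈ W.B (W.s 0), W.Lv b m (g • x) y := by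
  have hk := A.k5
  have hgen : ∀ i, i + 2 ≤ m → ∀ t : Γ, t = W.s i ∨ t = (W.s i)⁻¹ → ∀ x : F,
      (∃ y ∈ W.B (W.s 0), W.Lv b m x y) → ∃ y ∈ W.B (W.s 0), W.Lv b m (t • x) y := by
    rintro i him t ht x ⟨y, hy, hxy⟩
    have htm : t ∈ W.Bm m := by
      rcases ht with rfl | rfl
      · exact W.s_mem_Bm (by omega)
      · exact inv_mem (W.s_mem_Bm (by omega))
    have htc : t * W.s i = W.s i * t := by
      rcases ht with rfl | rfl
      · rfl
      · group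
    have harci : W.Arc (W.s i) := W.arc_s i (by omega)
    obtain ⟨z, hz, hRz⟩ := A.exists_B harci y
    have hyz : W.Lv b m y z := lvD A h3 h2 h1 hV h4m hm i him hy hz hRz
    have hxz : W.Lv b m (t • x) (t • z) := Lv.smul hm.le htm (Lv.trans A (by omega) hm hxy hyz)
    have htz : t • z ∈ W.B (W.s i) := (B_smul htc z).2 hz
    obtain ⟨w, hw, hRw⟩ := A.exists_B W.arc_s0 (t • z)
    have hwz : W.Lv b m w (t • z) := lvD A h3 h2 h1 hV h4m hm i him hw htz (W.R_symm hRw)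
    exact ⟨w, hw, Lv.trans A (by omega) hm hxz hwz.symm⟩
  have hmain : ∀ g ∈ W.Bm m, (∀ x : F, (∃ y ∈ W.B (W.s 0), W.Lv b m x y) →
      ∃ y ∈ W.B (W.s 0), W.Lv b m (g • x) y) ∧ (∀ x : F, (∃ y ∈ W.B (W.s 0), W.Lv b m x y) →
      ∃ y ∈ W.B (W.s 0), W.Lv b m (g⁻¹ • x) y) := by
    intro g hg
    refine Subgroup.closure_induction ?_ ?_ ?_ ?_ hg
    · rintro t ⟨i, hi, rfl⟩
      exact ⟨hgen i (by omega) _ (Or.inl rfl), hgen i (by omega) _ (Or.inr rfl)⟩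
    · refine ⟨fun x hx => by rwa [one_smul], fun x hx => by rwa [inv_one, one_smul]⟩
    · intro a c _ _ ha hc
      refine ⟨fun x hx => ?_, fun x hx => ?_⟩
      · rw [mul_smul]
        exact ha.1 _ (hc.1 _ hx)
      · rw [mul_inv_rev, mul_smul]
        exact hc.2 _ (ha.2 _ hx)
    · intro a _ ha
      refine ⟨ha.2, fun x hx => ?_⟩
      rw [inv_inv]
      exact ha.1 x hx
  exact (hmain g hg).1 x hx

/-- the levels, `4 ≤ m < k` -/
theorem SLV_of {m : ℕ} (h4m : 4 ≤ m) (hm : m < k) : W.SLV b m := by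
  rintro x y ⟨g, hg, hx⟩ ⟨g', hg', hy⟩ hR hne
  have key : ∀ g ∈ W.Bm m, ∀ x, x ∈ W.B (g * W.s 0 * g⁻¹) → ∃ y ∈ W.B (W.s 0), W.Lv b m x y := by
    intro g hg x hx
    rw [B_conj'] at hx
    have h := lvE A h3 h2 h1 hV h4m hm hg (x := g⁻¹ • x) ⟨g⁻¹ • x, hx, Lv.refl W b m _⟩
    rwa [smul_inv_smul] at h
  obtain ⟨x', hx', hxx⟩ := key g hg x hx
  obtain ⟨y', hy', hyy⟩ := key g' hg' y hy
  have hR' : W.R x' y' := W.R_trans (W.R_symm hxx.1) (W.R_trans hR hyy.1)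
  have h := Lv.trans A (by omega) hm (Lv.trans A (by omega) hm hxx (lvA A h2 h1 hV h4m hm hx' hy' hR')) hyy.symm
  exact h.2 hne

end levels

end WSys

end LN6
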