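import Pool.Agent.Helper26.LN6.Vm
import Pool.Agent.Helper32.LN6.ChiF

/-!
LN6, leaf E3: `SLV b 3` from `SLV b 4`, `SLV2` from `SLV b 3` (memo_LN6_helper26.md, section 2).
-/

open scoped Classical
open Finset

namespace LN6

namespace WSys

variable {k : ℕ} {Γ F : Type} [Group Γ] [MulAction Γ F] {W : WSys k Γ F} {b : ℝ}

/-- elements of largest classes of arcs in the disc `{0,1,2}` -/
def S3 (W : WSys k Γ F) [Fintype F] : Set F := {x | ∃ g ∈ W.Bm 3, x ∈ W.B (g * W.s 0 * g⁻¹)}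

variable [Fintype F]

theorem S3_step {t : Γ} (ht : t ∈ W.Bm 3 ∨ ∀ g ∈ W.Bm 3, Commute t g) {x : F} (hx : x ∈ W.S3) : t • x ∈ W.S3 := by
  obtain ⟨g, hg, hxg⟩ := hx
  rcases ht with h | h
  · refine ⟨t * g, mul_mem h hg, ?_⟩
    have he : t * g * W.s 0 * (t * g)⁻¹ = t * (g * W.s 0 * g⁻¹) * t⁻¹ := by group
    rw [he, B_conj]
    exact hxg
  · refine ⟨g, hg, ?_⟩
    have hs0 : Commute t (W.s 0) := h _ (W.s_mem_Bm (by omega))
    have hc : Commute t (g * W.s 0 * g⁻¹) := ((h g hg).mul_right hs0).mul_right (h g hg).inv_right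
    exact (B_smul hc.eq x).2 hxg

theorem S3_L3 (hk : 5 ≤ k) {g : Γ} (hg : g ∈ W.L3) {x : F} (hx : x ∈ W.S3) : g • x ∈ W.S3 := by
  have hgen : ∀ t : Γ, (t ∈ W.Bm 3 ∨ ∀ g ∈ W.Bm 3, Commute t g) → (∀ x ∈ W.S3, t • x ∈ W.S3) ∧
      ∀ x ∈ W.S3, t⁻¹ • x ∈ W.S3 := by
    intro t ht
    refine ⟨fun x hx => S3_step ht hx, fun x hx => S3_step ?_ hx⟩
    rcases ht with h | h
    · exact Or.inl (inv_mem h)
    · exact Or.inr fun g hg => (h g hg).inv_left
  have hmain : ∀ g ∈ W.L3, (∀ x ∈ W.S3, g • x ∈ W.S3) ∧ ∀ x ∈ W.S3, g⁻¹ • x ∈ W.S3 := by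
    intro g hg
    refine Subgroup.closure_induction ?_ ?_ ?_ ?_ hg
    · rintro t ((rfl | rfl | rfl) | ⟨i, hi, hik, rfl⟩)
      · exact hgen _ (Or.inl (W.s_mem_Bm (by omega)))
      · exact hgen _ (Or.inl (W.s_mem_Bm (by omega)))
      · exact hgen _ (Or.inr fun g hg => (W.Bm_commute_lam (by omega) hg).symm)
      · exact hgen _ (Or.inr fun g hg => (W.commute_of_Bm
          (fun j hj => W.commute_s j i (by omega) hik) hg).symm)
    · exact ⟨fun x hx => by rwa [one_smul], fun x hx => by rwa [inv_one, one_smul]⟩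
    · intro a c _ _ ha hc
      refine ⟨fun x hx => ?_, fun x hx => ?_⟩
      · rw [mul_smul]
        exact ha.1 _ (hc.1 _ hx)
      · rw [mul_inv_rev, mul_smul]
        exact hc.2 _ (ha.2 _ hx)
    · intro a _ ha
      refine ⟨ha.2, fun x hx => ?_⟩
      rw [inv_inv]
      exact ha.1 x hx
  exact (hmain g hg).1 x hx

/-- level 3 from level 4 -/
theorem SLV3_of (A : W.Ax b) (h4 : W.SLV b 4) : W.SLV b 3 := by
  have hk := A.k5
  intro x y hx hy hR hne
  have hx' : x ∈ W.S3 := hx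
  have hy' : y ∈ W.S3 := hy
  have hO : W.Good (orb W.L3 x y) := W.good_orb _ hR hne
  have hL : W.L3 ≤ stab Γ (orb W.L3 x y) := le_stab_orb _ x y
  have e1 := chi_T_L3 hO hL k (by omega) le_rfl
  have e2 := chi_T_L3 hO hL 4 (by omega) (by omega)
  rw [chi_T_k A hO] at e1
  have e3 : W.chi (orb W.L3 x y) (W.T 3) = (orb W.L3 x y).card * W.v (W.T 3) x y := by
    unfold chi
    rw [sum_congr rfl fun p hp => eq_on_orb (W := W) (g := W.T 3)
      (fun h hh => (W.L3_commute_T3 (by omega) hh).symm.eq) hR hne p hp]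
    simp
  have e4 : ((orb W.L3 x y).card : ℝ) * b ≤ W.chi (orb W.L3 x y) (W.T 4) := by
    unfold chi
    rw [← nsmul_eq_mul]
    apply card_nsmul_le_sum
    intro p hp
    obtain ⟨g, hg, rfl⟩ := mem_orb.1 hp
    obtain ⟨g1, hg1, hx1⟩ := S3_L3 hk hg hx'
    obtain ⟨g2, hg2, hy2⟩ := S3_L3 hk hg hy'
    exact h4 _ _ ⟨g1, W.Bm_mono (by omega) hg1, hx1⟩ ⟨g2, W.Bm_mono (by omega) hg2, hy2⟩ (W.R_smul g hR)
      (by simpa using hne)
  have e5 : 0 ≤ W.chi (orb W.L3 x y) (W.s 3) := A.chi_arc_nonneg (W.arc_s 3 (by omega)) hO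
  have hN : 0 < ((orb W.L3 x y).card : ℝ) := by exact_mod_cast orb_card_pos W.L3 x y
  have hk' : (5 : ℝ) ≤ k := by exact_mod_cast hk
  set N : ℝ := ((orb W.L3 x y).card : ℝ)
  set V := W.v (W.T 3) x y
  set l3 := W.chi (orb W.L3 x y) (W.lam 3)
  set s3 := W.chi (orb W.L3 x y) (W.s 3)
  set C4 := W.chi (orb W.L3 x y) (W.T 4)
  rw [e3] at e1 e2
  push_cast at e2
  by_contra hcon
  push Not at hcon
  have h5 : C4 = N * V + l3 := by rw [e2]; ring
  have h6 : 0 ≤ ((k : ℝ) - 3) * ((k : ℝ) - 4) * s3 :=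
    mul_nonneg (mul_nonneg (by linarith) (by linarith)) e5
  have h7 : ((k : ℝ) - 3) * (N * b - N * V) ≤ ((k : ℝ) - 3) * l3 :=
    mul_le_mul_of_nonneg_left (by linarith) (by linarith)
  have h8 : 0 < N * (b - V) := mul_pos hN (by linarith)
  nlinarith [mul_nonneg (by linarith : (0 : ℝ) ≤ (k : ℝ) - 5) h8.le]

theorem B_L (hk : 5 ≤ k) {g : Γ} (hg : g ∈ W.L) {x : F} (hx : x ∈ W.B (W.s 0)) : g • x ∈ W.B (W.s 0) :=
  (B_smul (W.L_commute_s0 (by omega) hg).eq x).2 hx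

/-- level 2 from level 3 -/
theorem SLV2_of (A : W.Ax b) (h3 : W.SLV b 3) : W.SLV2 b := by
  have hk := A.k5
  intro x y hx hy hR hne
  have hO : W.Good (orb W.L x y) := W.good_orb _ hR hne
  have hL : W.L ≤ stab Γ (orb W.L x y) := le_stab_orb _ x y
  have e1 := chi_T_L hO hL k (by omega) le_rfl
  have e2 := chi_T_L hO hL 3 (by omega) (by omega)
  rw [chi_T_k A hO] at e1
  have e3 : W.chi (orb W.L x y) (W.s 0) = (orb W.L x y).card * W.v (W.s 0) x y := by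
    unfold chi
    rw [sum_congr rfl fun p hp => eq_on_orb (W := W) (g := W.s 0)
      (fun h hh => (W.L_commute_s0 (by omega) hh).symm.eq) hR hne p hp]
    simp
  have e4 : ((orb W.L x y).card : ℝ) * b ≤ W.chi (orb W.L x y) (W.T 3) := by
    unfold chi
    rw [← nsmul_eq_mul]
    apply card_nsmul_le_sum
    intro p hp
    obtain ⟨g, hg, rfl⟩ := mem_orb.1 hp
    exact h3 _ _ ⟨1, one_mem _, by simpa using B_L hk hg hx⟩ ⟨1, one_mem _, by simpa using B_L hk hg hy⟩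
      (W.R_smul g hR) (by simpa using hne)
  have e5 : 0 ≤ W.chi (orb W.L x y) (W.s 2) := A.chi_arc_nonneg (W.arc_s 2 (by omega)) hO
  have hN : 0 < ((orb W.L x y).card : ℝ) := by exact_mod_cast orb_card_pos W.L x y
  have hk' : (5 : ℝ) ≤ k := by exact_mod_cast hk
  set N : ℝ := ((orb W.L x y).card : ℝ)
  set V := W.v (W.s 0) x y
  set l2 := W.chi (orb W.L x y) (W.lam 2)
  set s2 := W.chi (orb W.L x y) (W.s 2)
  set C3 := W.chi (orb W.L x y) (W.T 3)
  rw [e3] at e1 e2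
  push_cast at e2
  by_contra hcon
  push Not at hcon
  have h5 : C3 = 2 * (N * V) + l2 := by rw [e2]; ring
  have h6 : 0 ≤ ((k : ℝ) - 2) * ((k : ℝ) - 3) * s2 :=
    mul_nonneg (mul_nonneg (by linarith) (by linarith)) e5
  have h7 : ((k : ℝ) - 2) * (N * b - 2 * (N * V)) ≤ ((k : ℝ) - 2) * l2 :=
    mul_le_mul_of_nonneg_left (by linarith) (by linarith)
  have h8 : 0 < N * (b - 2 * V) := mul_pos hN (by linarith)
  nlinarith [mul_nonneg (by linarith : (0 : ℝ) ≤ (k : ℝ) - 5) h8.le]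

end WSys

end LN6
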