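import Pool.Agent.Helper26.LN6.Defs

/-!
LN6, leaf B1: the words `T m`, `lam m` and the subgroups `Bm m`, `L`, `L3` (group theory only).
-/

namespace LN6

namespace WSys

variable {k : ℕ} {Γ F : Type} [Group Γ] [MulAction Γ F]

theorem lam_step (W : WSys k Γ F) (m : ℕ) : W.lam (m + 1) = W.s m * W.lam m * W.s m := by
  cases m with
  | zero => simp [lam]
  | succ n => rfl

theorem T_step (W : WSys k Γ F) (m : ℕ) : W.T (m + 1) = W.T m * W.lam m := by
  cases m with
  | zero => simp [lam, T]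
  | succ n => rfl

theorem T_two_mul (W : WSys k Γ F) : W.T 2 = W.s 0 * W.s 0 := by simp [T, lam]

/-! the same under the names used by Base, Chi0, Rho, ChiF (added by helper26) -/

theorem T_two (W : WSys k Γ F) : W.T 2 = W.s 0 * W.s 0 := W.T_two_mul

theorem lam_succ (W : WSys k Γ F) (m : ℕ) : W.lam (m + 1) = W.s m * W.lam m * W.s m := W.lam_step m

theorem T_succ (W : WSys k Γ F) (m : ℕ) : W.T (m + 1) = W.T m * W.lam m := W.T_step m

theorem commute_s (W : WSys k Γ F) (i j : ℕ) (hij : i + 2 ≤ j) (hj : j + 1 < k) : Commute (W.s i) (W.s j) :=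
  W.comm i j hij hj

/-- `s i` and `s j` commute when `i`, `j` are far apart (in any order). -/
theorem commute_s' (W : WSys k Γ F) (i j : ℕ) (hij : i + 2 ≤ j ∨ j + 2 ≤ i ∨ i = j) (hi : i + 1 < k) (hj : j + 1 < k) :
    Commute (W.s i) (W.s j) := by
  rcases hij with h | h | h
  · exact W.comm i j h hj
  · exact (W.commute_s j i h hi).symm
  · subst h
    exact Commute.refl _

/-! ### conjugation of the generators -/

theorem s_conj (W : WSys k Γ F) (i : ℕ) (hi : i + 2 < k) :
    W.s (i + 1) = (W.s i * W.s (i + 1)) * W.s i * (W.s i * W.s (i + 1))⁻¹ := by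
  rw [eq_mul_inv_iff_mul_eq, ← mul_assoc]
  exact (W.braid i hi).symm

theorem s_conj' (W : WSys k Γ F) (i : ℕ) (hi : i + 2 < k) :
    W.s i = (W.s (i + 1) * W.s i) * W.s (i + 1) * (W.s (i + 1) * W.s i)⁻¹ := by
  rw [eq_mul_inv_iff_mul_eq, ← mul_assoc]
  exact W.braid i hi

/-! ### the subgroups `Bm` -/

theorem s_mem_Bm (W : WSys k Γ F) {i m : ℕ} (h : i + 1 < m) : W.s i ∈ W.Bm m :=
  Subgroup.subset_closure ⟨i, h, rfl⟩

theorem Bm_mono (W : WSys k Γ F) {m n : ℕ} (h : m ≤ n) : W.Bm m ≤ W.Bm n := by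
  apply Subgroup.closure_mono
  rintro g ⟨i, hi, rfl⟩
  exact ⟨i, by omega, rfl⟩

theorem lam_mem_Bm (W : WSys k Γ F) (m : ℕ) : W.lam m ∈ W.Bm (m + 1) := by
  induction m with
  | zero => exact one_mem _
  | succ n ih =>
    rw [W.lam_step]
    have hs : W.s n ∈ W.Bm (n + 1 + 1) := W.s_mem_Bm (by omega)
    exact mul_mem (mul_mem hs (W.Bm_mono (by omega) ih)) hs

theorem T_mem_Bm (W : WSys k Γ F) (m : ℕ) : W.T m ∈ W.Bm m := by
  induction m with
  | zero => exact one_mem _
  | succ n ih =>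
    rw [W.T_step]
    exact mul_mem (W.Bm_mono (by omega) ih) (W.lam_mem_Bm n)

/-- an element commutes with `Bm m` as soon as it commutes with its generators -/
theorem commute_of_Bm (W : WSys k Γ F) {m : ℕ} {t : Γ} (ht : ∀ i, i + 1 < m → Commute (W.s i) t) {g : Γ}
    (hg : g ∈ W.Bm m) : Commute g t := by
  refine Subgroup.closure_induction ?_ ?_ ?_ ?_ hg
  · rintro x ⟨i, hi, rfl⟩
    exact ht i hi
  · exact Commute.one_left t
  · intro x y _ _ hx hy
    exact hx.mul_left hy
  · intro x _ hx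
    exact hx.inv_left

/-- every `s i` is conjugate to `s 0` inside `Bm (i + 2)` -/
theorem s_conj_zero (W : WSys k Γ F) (i : ℕ) (hi : i + 1 < k) :
    ∃ g ∈ W.Bm (i + 2), W.s i = g * W.s 0 * g⁻¹ := by
  induction i with
  | zero => exact ⟨1, one_mem _, by simp⟩
  | succ n ih =>
    obtain ⟨g, hg, hgs⟩ := ih (by omega)
    refine ⟨W.s n * W.s (n + 1) * g, mul_mem (mul_mem (W.s_mem_Bm (by omega)) (W.s_mem_Bm (by omega)))
      (W.Bm_mono (by omega) hg), ?_⟩
    calc W.s (n + 1) = (W.s n * W.s (n + 1)) * W.s n * (W.s n * W.s (n + 1))⁻¹ := W.s_conj n (by omega)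
      _ = (W.s n * W.s (n + 1)) * (g * W.s 0 * g⁻¹) * (W.s n * W.s (n + 1))⁻¹ := by rw [← hgs]
      _ = _ := by group

/-! ### commutation -/

/-- `lam m` commutes with the far generators -/
theorem lam_commute_far (W : WSys k Γ F) (m i : ℕ) (hi : m + 1 ≤ i) (hik : i + 1 < k) :
    Commute (W.lam m) (W.s i) :=
  W.commute_of_Bm (fun j hj => W.commute_s j i (by omega) hik) (W.lam_mem_Bm m)

theorem T_commute_far (W : WSys k Γ F) (m i : ℕ) (hi : m ≤ i) (hik : i + 1 < k) : Commute (W.T m) (W.s i) :=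
  W.commute_of_Bm (fun j hj => W.commute_s j i (by omega) hik) (W.T_mem_Bm m)

/-- `lam m` commutes with `s i` for `i + 2 ≤ m` -/
theorem lam_commute_near (W : WSys k Γ F) (m : ℕ) (hm : m < k) (i : ℕ) (hi : i + 2 ≤ m) :
    Commute (W.lam m) (W.s i) := by
  induction m generalizing i with
  | zero => omega
  | succ n ih =>
    rcases Nat.lt_or_ge (i + 2) (n + 1) with h | h
    · rw [W.lam_step]
      have h1 : Commute (W.s n) (W.s i) := (W.commute_s i n (by omega) (by omega)).symm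
      exact (h1.mul_left (ih (by omega) i (by omega))).mul_left h1
    · obtain ⟨j, rfl⟩ : ∃ j, n = j + 1 := ⟨n - 1, by omega⟩
      obtain rfl : i = j := by omega
      have hl : Commute (W.lam i) (W.s (i + 1)) := W.lam_commute_far i (i + 1) le_rfl (by omega)
      have hb := W.braid i (by omega)
      change W.lam (i + 1 + 1) * W.s i = W.s i * W.lam (i + 1 + 1)
      rw [W.lam_step (i + 1), W.lam_step i]
      calc W.s (i + 1) * (W.s i * W.lam i * W.s i) * W.s (i + 1) * W.s i
          = W.s (i + 1) * W.s i * W.lam i * (W.s i * W.s (i + 1) * W.s i) := by group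
        _ = W.s (i + 1) * W.s i * W.lam i * (W.s (i + 1) * W.s i * W.s (i + 1)) := by rw [hb]
        _ = W.s (i + 1) * W.s i * (W.lam i * W.s (i + 1)) * (W.s i * W.s (i + 1)) := by group
        _ = W.s (i + 1) * W.s i * (W.s (i + 1) * W.lam i) * (W.s i * W.s (i + 1)) := by rw [hl.eq]
        _ = (W.s (i + 1) * W.s i * W.s (i + 1)) * W.lam i * (W.s i * W.s (i + 1)) := by group
        _ = (W.s i * W.s (i + 1) * W.s i) * W.lam i * (W.s i * W.s (i + 1)) := by rw [hb]
        _ = W.s i * (W.s (i + 1) * (W.s i * W.lam i * W.s i) * W.s (i + 1)) := by group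

/-- `lam m` commutes with the group of the strands `0, ..., m-1` -/
theorem Bm_commute_lam (W : WSys k Γ F) {m : ℕ} (hm : m < k) {g : Γ} (hg : g ∈ W.Bm m) : Commute g (W.lam m) :=
  W.commute_of_Bm (fun i hi => (W.lam_commute_near m hm i (by omega)).symm) hg

/-- the relation of type `B` -/
theorem lam_typeB (W : WSys k Γ F) (m : ℕ) (hm : m + 1 < k) :
    W.s m * W.lam m * W.s m * W.lam m = W.lam m * W.s m * W.lam m * W.s m := by
  have h : Commute (W.lam m) (W.lam (m + 1)) := W.Bm_commute_lam hm (W.lam_mem_Bm m)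
  have h' := h.eq
  rw [W.lam_step] at h'
  calc W.s m * W.lam m * W.s m * W.lam m = (W.s m * W.lam m * W.s m) * W.lam m := by group
    _ = W.lam m * (W.s m * W.lam m * W.s m) := h'.symm
    _ = _ := by group

theorem T_commute_near (W : WSys k Γ F) (m : ℕ) (hm : m ≤ k) (i : ℕ) (hi : i + 2 ≤ m) :
    Commute (W.T m) (W.s i) := by
  induction m generalizing i with
  | zero => omega
  | succ n ih =>
    rcases Nat.lt_or_ge (i + 2) (n + 1) with h | h
    · rw [W.T_step]
      exact (ih (by omega) i (by omega)).mul_left (W.lam_commute_near n (by omega) i (by omega))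
    · obtain rfl : n = i + 1 := by omega
      have hB := W.lam_typeB i (by omega)
      have hT : Commute (W.T i) (W.s i) := W.T_commute_far i i le_rfl (by omega)
      change W.T (i + 1 + 1) * W.s i = W.s i * W.T (i + 1 + 1)
      rw [W.T_step (i + 1), W.T_step i, W.lam_step i]
      calc W.T i * W.lam i * (W.s i * W.lam i * W.s i) * W.s i
          = W.T i * (W.lam i * W.s i * W.lam i * W.s i) * W.s i := by group
        _ = W.T i * (W.s i * W.lam i * W.s i * W.lam i) * W.s i := by rw [hB]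
        _ = (W.T i * W.s i) * (W.lam i * (W.s i * W.lam i * W.s i)) := by group
        _ = (W.s i * W.T i) * (W.lam i * (W.s i * W.lam i * W.s i)) := by rw [hT.eq]
        _ = W.s i * (W.T i * W.lam i * (W.s i * W.lam i * W.s i)) := by group

/-- every element of `Bm m` commutes with `T m` -/
theorem Bm_commute_T (W : WSys k Γ F) {m : ℕ} (hm : m ≤ k) {g : Γ} (hg : g ∈ W.Bm m) : Commute g (W.T m) :=
  W.commute_of_Bm (fun i hi => (W.T_commute_near m hm i (by omega)).symm) hg

/-- `T m` commutes with all generators except `s (m-1)` -/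
theorem T_commute_s (W : WSys k Γ F) (m i : ℕ) (hm : m ≤ k) (hik : i + 1 < k) (hi : i + 1 ≠ m) :
    Commute (W.T m) (W.s i) := by
  rcases Nat.lt_or_ge i m with h | h
  · exact W.T_commute_near m hm i (by omega)
  · exact W.T_commute_far m i h hik

/-- `T k` commutes with all generators -/
theorem Tk_commute_s (W : WSys k Γ F) (i : ℕ) (hik : i + 1 < k) : Commute (W.T k) (W.s i) :=
  W.T_commute_near k le_rfl i (by omega)

/-- `T m` commutes with `T n` -/
theorem T_commute_T (W : WSys k Γ F) (m n : ℕ) (hmn : m ≤ n) (hn : n ≤ k) : Commute (W.T m) (W.T n) :=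
  W.Bm_commute_T hn (W.Bm_mono hmn (W.T_mem_Bm m))

/-- `T m` commutes with `lam m` -/
theorem T_commute_lam (W : WSys k Γ F) (m n : ℕ) (hmn : m ≤ n) (hn : n < k) : Commute (W.T m) (W.lam n) :=
  W.Bm_commute_lam hn (W.Bm_mono hmn (W.T_mem_Bm m))

/-- `lam m` commutes with `lam n` -/
theorem lam_commute_lam (W : WSys k Γ F) (m n : ℕ) (hmn : m ≤ n) (hn : n < k) : Commute (W.lam m) (W.lam n) := by
  rcases Nat.eq_or_lt_of_le hmn with h | h
  · subst h
    exact Commute.refl _
  · exact W.Bm_commute_lam hn (W.Bm_mono (by omega) (W.lam_mem_Bm m))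

/-- `lam m` commutes with `T n`, `m < n` -/
theorem lam_commute_T (W : WSys k Γ F) (m n : ℕ) (hmn : m < n) (hn : n ≤ k) : Commute (W.lam m) (W.T n) :=
  W.Bm_commute_T hn (W.Bm_mono (by omega) (W.lam_mem_Bm m))

/-- `lam m = T m⁻¹ * T (m+1)` -/
theorem lam_eq (W : WSys k Γ F) (m : ℕ) : W.lam m = (W.T m)⁻¹ * W.T (m + 1) := by
  rw [W.T_step]
  group

/-! ### the subgroup `L` -/

theorem s0_mem_L (W : WSys k Γ F) : W.s 0 ∈ W.L :=
  Subgroup.subset_closure (Or.inl (Or.inl rfl))

theorem lam2_mem_L (W : WSys k Γ F) : W.lam 2 ∈ W.L :=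
  Subgroup.subset_closure (Or.inl (Or.inr rfl))

theorem s_mem_L (W : WSys k Γ F) {i : ℕ} (hi : 2 ≤ i) (hik : i + 1 < k) : W.s i ∈ W.L :=
  Subgroup.subset_closure (Or.inr ⟨i, hi, hik, rfl⟩)

theorem lam_mem_L (W : WSys k Γ F) (j : ℕ) (hj : 2 ≤ j) (hjk : j < k) : W.lam j ∈ W.L := by
  induction j, hj using Nat.le_induction with
  | base => exact W.lam2_mem_L
  | succ n hn ih =>
    rw [W.lam_step]
    exact mul_mem (mul_mem (W.s_mem_L hn (by omega)) (ih (by omega))) (W.s_mem_L hn (by omega))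

theorem T_mem_L (W : WSys k Γ F) (j : ℕ) (hj : 2 ≤ j) (hjk : j ≤ k) : W.T j ∈ W.L := by
  induction j, hj using Nat.le_induction with
  | base =>
    rw [W.T_two_mul]
    exact mul_mem W.s0_mem_L W.s0_mem_L
  | succ n hn ih =>
    rw [W.T_step]
    exact mul_mem (ih (by omega)) (W.lam_mem_L n hn (by omega))

/-- induction principle for commutation with `L` -/
theorem commute_of_L (W : WSys k Γ F) {t : Γ} (h0 : Commute (W.s 0) t) (h2 : Commute (W.lam 2) t)
    (hs : ∀ i, 2 ≤ i → i + 1 < k → Commute (W.s i) t) {g : Γ} (hg : g ∈ W.L) : Commute g t := by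
  refine Subgroup.closure_induction ?_ ?_ ?_ ?_ hg
  · rintro x ((rfl | rfl) | ⟨i, hi, hik, rfl⟩)
    · exact h0
    · exact h2
    · exact hs i hi hik
  · exact Commute.one_left t
  · intro x y _ _ hx hy
    exact hx.mul_left hy
  · intro x _ hx
    exact hx.inv_left

/-- `L` centralises `s 0` -/
theorem L_commute_s0 (W : WSys k Γ F) (hk : 2 < k) {g : Γ} (hg : g ∈ W.L) : Commute g (W.s 0) :=
  W.commute_of_L (Commute.refl _) (W.lam_commute_near 2 hk 0 le_rfl)
    (fun i hi hik => (W.commute_s 0 i (by omega) hik).symm) hg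

/-- `L` centralises `T k` (in fact `T k` is central) -/
theorem L_commute_Tk (W : WSys k Γ F) (hk : 2 < k) {g : Γ} (hg : g ∈ W.L) : Commute g (W.T k) :=
  W.commute_of_L (W.Tk_commute_s 0 (by omega)).symm (W.lam_commute_T 2 k hk le_rfl)
    (fun i _ hik => (W.Tk_commute_s i hik).symm) hg

/-! ### the subgroup `L3` -/

theorem s0_mem_L3 (W : WSys k Γ F) : W.s 0 ∈ W.L3 :=
  Subgroup.subset_closure (Or.inl (Or.inl rfl))

theorem s1_mem_L3 (W : WSys k Γ F) : W.s 1 ∈ W.L3 :=
  Subgroup.subset_closure (Or.inl (Or.inr (Or.inl rfl)))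

theorem lam3_mem_L3 (W : WSys k Γ F) : W.lam 3 ∈ W.L3 :=
  Subgroup.subset_closure (Or.inl (Or.inr (Or.inr rfl)))

theorem s_mem_L3 (W : WSys k Γ F) {i : ℕ} (hi : 3 ≤ i) (hik : i + 1 < k) : W.s i ∈ W.L3 :=
  Subgroup.subset_closure (Or.inr ⟨i, hi, hik, rfl⟩)

theorem Bm3_le_L3 (W : WSys k Γ F) : W.Bm 3 ≤ W.L3 := by
  refine (Subgroup.closure_le _).2 ?_
  rintro g ⟨i, hi, rfl⟩
  have h : i = 0 ∨ i = 1 := by omega
  rcases h with rfl | rfl
  · exact W.s0_mem_L3
  · exact W.s1_mem_L3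

theorem lam_mem_L3 (W : WSys k Γ F) (j : ℕ) (hj : 3 ≤ j) (hjk : j < k) : W.lam j ∈ W.L3 := by
  induction j, hj using Nat.le_induction with
  | base => exact W.lam3_mem_L3
  | succ n hn ih =>
    rw [W.lam_step]
    exact mul_mem (mul_mem (W.s_mem_L3 hn (by omega)) (ih (by omega))) (W.s_mem_L3 hn (by omega))

theorem T_mem_L3 (W : WSys k Γ F) (j : ℕ) (hj : 3 ≤ j) (hjk : j ≤ k) : W.T j ∈ W.L3 := by
  induction j, hj using Nat.le_induction with
  | base => exact W.Bm3_le_L3 (W.T_mem_Bm 3)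
  | succ n hn ih =>
    rw [W.T_step]
    exact mul_mem (ih (by omega)) (W.lam_mem_L3 n hn (by omega))

theorem commute_of_L3 (W : WSys k Γ F) {t : Γ} (h0 : Commute (W.s 0) t) (h1 : Commute (W.s 1) t)
    (h2 : Commute (W.lam 3) t) (hs : ∀ i, 3 ≤ i → i + 1 < k → Commute (W.s i) t) {g : Γ} (hg : g ∈ W.L3) :
    Commute g t := by
  refine Subgroup.closure_induction ?_ ?_ ?_ ?_ hg
  · rintro x ((rfl | rfl | rfl) | ⟨i, hi, hik, rfl⟩)
    · exact h0
    · exact h1
    · exact h2
    · exact hs i hi hik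
  · exact Commute.one_left t
  · intro x y _ _ hx hy
    exact hx.mul_left hy
  · intro x _ hx
    exact hx.inv_left

/-- `L3` centralises `T 3` -/
theorem L3_commute_T3 (W : WSys k Γ F) (hk : 3 < k) {g : Γ} (hg : g ∈ W.L3) : Commute g (W.T 3) :=
  W.commute_of_L3 (W.T_commute_near 3 hk.le 0 (by omega)).symm (W.T_commute_near 3 hk.le 1 (by omega)).symm
    (W.T_commute_lam 3 3 le_rfl hk).symm (fun i hi hik => (W.T_commute_far 3 i hi hik).symm) hg

/-- an induction principle for statements about `L`-stable sets -/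
theorem L_induction (W : WSys k Γ F) {P : Γ → Prop} (h0 : P (W.s 0)) (h2 : P (W.lam 2))
    (hs : ∀ i, 2 ≤ i → i + 1 < k → P (W.s i)) (h1 : P 1) (hmul : ∀ x y, x ∈ W.L → y ∈ W.L → P x → P y → P (x * y))
    (hinv : ∀ x, x ∈ W.L → P x → P x⁻¹) {g : Γ} (hg : g ∈ W.L) : P g := by
  refine Subgroup.closure_induction (p := fun g _ => P g) ?_ h1 (fun x y hx hy h h' => hmul x y hx hy h h')
    (fun x hx h => hinv x hx h) hg
  rintro x ((rfl | rfl) | ⟨i, hi, hik, rfl⟩)
  · exact h0
  · exact h2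
  · exact hs i hi hik

end WSys

end LN6
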